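import Pool.Agent.Helper55.RT.Spec5
import Pool.Agent.Helper44.Thin.RSV0

/-!
# RES: classes which are fixed by the automorphisms over `κ`, and vanishing over `κ(t)`
-/

set_option autoImplicit false
set_option linter.all false

open Polynomial IsDedekindDomain
open scoped Classical

namespace Pool.Agent.Helper35.Thin.RES

open Pool.Agent.TH115.GD Pool.Agent.Helper55.TT
open Pool.Agent.Helper55.RG hiding em_inj VanishL VanishExt
open Pool.Agent.Helper55.RL
open Pool.Agent.Helper44.Thin.RSV

theorem main : Pool.Agent.Helper55.RT.Q_RES := by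
  intro p _ k k' K F _ _ _ _ _ _ _ _ _ _ hT₂ κ K' _ _ _ hT s π P D hsP h d ρ hρ hpro hun hno hπ
    c hcont hmul hfix hloc
  have hx := Pool.Agent.Helper44.Thin.RSV.alg_sub' (k := k) (k₂ := κ) hT₂ hT
  haveI := hT.sep
  haveI := hT.fracK
  haveI : CharZero κ := charZero_of_injective_algebraMap (algebraMap k κ).injective
  haveI : IsSepClosure K' (Sep F) := sepKΩ hT.map
  haveI : Algebra.IsSeparable K' (Sep F) := IsSepClosure.separable
  set r := res (F := F) hx with hr
  have hrc : Continuous r := res_cont hx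
  have hrs : ∀ σ : Sep F ≃ₐ[F] Sep F, r (σ.restrictScalars K') = σ.restrictScalars K := by
    intro σ
    ext x
    rfl
  have hact : ∀ (σ : Sep F ≃ₐ[F] Sep F) (y : Fin d → ℚ_[p]),
      actQ (ρ.comp r) (σ.restrictScalars K') y = actQ ρ (σ.restrictScalars K) y := by
    intro σ y
    unfold actQ
    rw [MonoidHom.comp_apply, hrs]
  have hcob : ∀ v, LocCobAt k' ρ c v → LocCobAt k' (ρ.comp r) c v := by
    rintro v ⟨ι, y, hy⟩
    exact ⟨ι, y, fun σ hσ => by rw [hy σ hσ, hact]⟩
  obtain ⟨y, hy⟩ := h d (ρ.comp r) (hρ.comp hrc) (by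
      intro σ hσ
      obtain ⟨m, hm⟩ := hpro (r σ) (fun x hx' => by
        obtain ⟨z, rfl⟩ := IntermediateField.mem_bot.1 hx'
        exact (r σ).commutes z)
      refine ⟨m, fun i j => ?_⟩
      have := hm i j
      rw [← map_pow] at this
      exact this) (by
      intro v hv ι σ hσ
      rw [MonoidHom.comp_apply, hrs]
      rw [hsP] at hv
      exact hun v hv ι σ hσ) (by
      intro θ hθ ι y hy
      exact hno θ (hπ θ hθ) ι y fun σ hσ => by rw [← hact]; exact hy σ hσ) c
    { cont := hcont
      mul := fun σ τ => by rw [hact]; exact hmul σ τ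
      fixed := fun τ => by
        obtain ⟨y, hy⟩ := hfix (r τ) (by
          intro e he
          have h1 : em k' F (Sep F) (C e) =
              algebraMap K' (Sep F) (algebraMap κ[X] K' (C (⟨e, he⟩ : κ))) := by
            rw [IsScalarTower.algebraMap_apply K' F (Sep F), hT.map]
            rw [Polynomial.map_C]
            rfl
          rw [h1]
          exact τ.commutes _)
        refine ⟨y, fun σ σ' hσ => ?_⟩
        rw [hact]
        exact hy σ σ' hσ }
    ⟨fun v hv => by
        rw [hsP] at hv
        exact hcob v (hloc.1 v hv), fun θ hθ => hcob _ (hloc.2 θ (hπ θ hθ))⟩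
  exact ⟨y, fun σ => by rw [hy, hact]⟩

end Pool.Agent.Helper35.Thin.RES

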